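import Mathlib

/-!
# Entrywise powers on the cone over a bipartite graph: basic lemmas
-/

set_option autoImplicit false

open Finset

namespace Pool.Agent.H422Cone

/-- Positive semidefiniteness of a real matrix through double sums. -/
theorem psd_iff {V : Type*} [Fintype V] (M : Matrix V V ℝ) :
    M.PosSemidef ↔ (∀ i j, M i j = M j i) ∧ ∀ x : V → ℝ, 0 ≤ ∑ i, ∑ j, x i * M i j * x j := by
  rw [Matrix.posSemidef_iff_dotProduct_mulVec]
  have h1 : M.IsHermitian ↔ ∀ i j, M i j = M j i := by
    constructor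
    · intro h i j
      have := congrFun (congrFun h j) i
      simpa [Matrix.conjTranspose_apply] using this
    · intro h
      ext i j
      simpa [Matrix.conjTranspose_apply] using h j i
  have h2 : ∀ x : V → ℝ, star x ⬝ᵥ (M.mulVec x) = ∑ i, ∑ j, x i * M i j * x j := by
    intro x
    simp only [dotProduct, Matrix.mulVec, Pi.star_apply, star_trivial, mul_sum]
    refine sum_congr rfl fun i _ => sum_congr rfl fun j _ => ?_
    ring
  rw [h1]
  constructor
  · rintro ⟨a, b⟩
    exact ⟨a, fun x => by rw [← h2]; exact b x⟩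
  · rintro ⟨a, b⟩
    exact ⟨a, fun x => by rw [h2]; exact b x⟩

/-- Superadditivity of `x ↦ (x + s)^α - s^α`. -/
theorem superadd {α s x y : ℝ} (hα : 1 ≤ α) (hs : 0 ≤ s) (hx : 0 ≤ x) (hy : 0 ≤ y) :
    ((x + s) ^ α - s ^ α) + ((y + s) ^ α - s ^ α) ≤ (x + y + s) ^ α - s ^ α := by
  rcases eq_or_lt_of_le (add_nonneg hx hy) with h0 | h0
  · have hx0 : x = 0 := by linarith
    have hy0 : y = 0 := by linarith
    subst hx0; subst hy0; simp
  · have hc := convexOn_rpow hα
    have hm1 : s ∈ Set.Ici (0 : ℝ) := hs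
    have hm2 : x + y + s ∈ Set.Ici (0 : ℝ) := by
      simp only [Set.mem_Ici]; linarith
    have h1 := hc.2 hm1 hm2 (div_nonneg hy h0.le) (div_nonneg hx h0.le)
      (show y / (x + y) + x / (x + y) = 1 by field_simp; ring)
    have h2 := hc.2 hm1 hm2 (div_nonneg hx h0.le) (div_nonneg hy h0.le)
      (show x / (x + y) + y / (x + y) = 1 by field_simp)
    simp only [smul_eq_mul] at h1 h2
    have e1 : y / (x + y) * s + x / (x + y) * (x + y + s) = x + s := by field_simp; ring
    have e2 : x / (x + y) * s + y / (x + y) * (x + y + s) = y + s := by field_simp; ring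
    rw [e1] at h1
    rw [e2] at h2
    have e3 : y / (x + y) + x / (x + y) = 1 := by field_simp; ring
    have h3 : (x + s) ^ α + (y + s) ^ α ≤
        (y / (x + y) + x / (x + y)) * s ^ α + (y / (x + y) + x / (x + y)) * (x + y + s) ^ α := by
      linarith
    rw [e3] at h3
    linarith

/-- Monotonicity of `x ↦ (x + s)^α - s^α`. -/
theorem mono {α s x y : ℝ} (hα : 1 ≤ α) (hs : 0 ≤ s) (hx : 0 ≤ x) (hxy : x ≤ y) :
    (x + s) ^ α - s ^ α ≤ (y + s) ^ α - s ^ α := by
  have : (x + s) ^ α ≤ (y + s) ^ α :=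
    Real.rpow_le_rpow (by linarith) (by linarith) (by linarith)
  linarith

/-- Superadditivity for finite sums. -/
theorem superadd_sum {ι : Type*} (t : Finset ι) {α s : ℝ} (hα : 1 ≤ α) (hs : 0 ≤ s) (x : ι → ℝ)
    (hx : ∀ i ∈ t, 0 ≤ x i) :
    ∑ i ∈ t, ((x i + s) ^ α - s ^ α) ≤ (∑ i ∈ t, x i + s) ^ α - s ^ α := by
  classical
  induction t using Finset.induction_on with
  | empty => simp
  | insert a t ha ih =>
    rw [sum_insert ha, sum_insert ha]
    have h1 := ih fun i hi => hx i (mem_insert_of_mem hi)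
    have h2 := superadd hα hs (hx a (mem_insert_self a t))
      (sum_nonneg fun i hi => hx i (mem_insert_of_mem hi))
    linarith

/-- A two by two rank one block stays positive semidefinite. -/
theorem block {α x y m s r n p q : ℝ} (hα : 1 ≤ α) (hx : 0 ≤ x) (hy : 0 ≤ y) (hm : 0 ≤ m)
    (hs : 0 ≤ s) (hr : 0 ≤ r) (hn : 0 ≤ n) (hm2 : m ^ 2 = x * y) (hn2 : n ^ 2 = s * r) :
    0 ≤ p ^ 2 * ((x + s) ^ α - s ^ α) + 2 * (p * q) * ((m + n) ^ α - n ^ α)
      + q ^ 2 * ((y + r) ^ α - r ^ α) := by
  let h : ℝ → ℝ := fun t => p ^ 2 * (t * x + s) ^ α + 2 * (p * q) * (t * m + n) ^ α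
      + q ^ 2 * (t * y + r) ^ α
  have hd : ∀ t : ℝ, HasDerivAt h (p ^ 2 * (x * α * (t * x + s) ^ (α - 1))
      + 2 * (p * q) * (m * α * (t * m + n) ^ (α - 1))
      + q ^ 2 * (y * α * (t * y + r) ^ (α - 1))) t := by
    intro t
    have hl : ∀ u v : ℝ, HasDerivAt (fun t : ℝ => (t * u + v) ^ α)
        (u * α * (t * u + v) ^ (α - 1)) t := by
      intro u v
      have h0 : HasDerivAt (fun t : ℝ => t * u + v) u t := by
        simpa using ((hasDerivAt_id t).mul_const u).add_const v
      exact h0.rpow_const (Or.inr hα)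
    exact (((hl x s).const_mul (p ^ 2)).add ((hl m n).const_mul (2 * (p * q)))).add
      ((hl y r).const_mul (q ^ 2))
  have hmono : MonotoneOn h (Set.Icc 0 1) := by
    apply monotoneOn_of_deriv_nonneg (convex_Icc 0 1)
    · exact fun t _ => (hd t).continuousAt.continuousWithinAt
    · exact fun t _ => (hd t).differentiableAt.differentiableWithinAt
    · intro t ht
      rw [interior_Icc] at ht
      rw [(hd t).deriv]
      have ht0 : 0 ≤ t := ht.1.le
      set X := t * x + s with hX
      set Y := t * y + r with hY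
      set W := t * m + n with hW
      have hX0 : 0 ≤ X := by positivity
      have hY0 : 0 ≤ Y := by positivity
      have hW0 : 0 ≤ W := by positivity
      have hW2 : W ^ 2 ≤ X * Y := by
        have hc : 2 * (m * n) ≤ x * r + y * s := by
          have h1 : (2 * (m * n)) ^ 2 ≤ (x * r + y * s) ^ 2 := by
            have : (2 * (m * n)) ^ 2 = 4 * ((x * r) * (y * s)) := by
              calc (2 * (m * n)) ^ 2 = 4 * (m ^ 2 * n ^ 2) := by ring
                _ = _ := by rw [hm2, hn2]; ring
            rw [this]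
            nlinarith [sq_nonneg (x * r - y * s)]
          exact (abs_le_of_sq_le_sq' h1 (by positivity)).2
        have : X * Y - W ^ 2 = t * (x * r + y * s - 2 * (m * n)) := by
          rw [hX, hY, hW]
          linear_combination (-t ^ 2) * hm2 - hn2
        nlinarith
      have hWp : (W ^ (α - 1)) ^ 2 ≤ X ^ (α - 1) * Y ^ (α - 1) := by
        rw [← Real.mul_rpow hX0 hY0, ← Real.rpow_natCast, ← Real.rpow_mul hW0,
          mul_comm (α - 1) ((2 : ℕ) : ℝ), Real.rpow_mul hW0, Real.rpow_natCast]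
        exact Real.rpow_le_rpow (by positivity) hW2 (by linarith)
      set a := X ^ (α - 1) with ha
      set b := Y ^ (α - 1) with hb
      set w := W ^ (α - 1) with hw
      have ha0 : 0 ≤ a := Real.rpow_nonneg hX0 _
      have hb0 : 0 ≤ b := Real.rpow_nonneg hY0 _
      have hw0 : 0 ≤ w := Real.rpow_nonneg hW0 _
      have key : 2 * (|p| * |q| * (m * w)) ≤ p ^ 2 * (x * a) + q ^ 2 * (y * b) := by
        have h1 : (2 * (|p| * |q| * (m * w))) ^ 2 ≤ (p ^ 2 * (x * a) + q ^ 2 * (y * b)) ^ 2 := by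
          have e : (2 * (|p| * |q| * (m * w))) ^ 2 = 4 * (p ^ 2 * q ^ 2 * ((x * y) * w ^ 2)) := by
            calc (2 * (|p| * |q| * (m * w))) ^ 2 = 4 * (|p| ^ 2 * |q| ^ 2 * (m ^ 2 * w ^ 2)) := by
                  ring
              _ = _ := by rw [sq_abs, sq_abs, hm2]
          rw [e]
          have h2 : (x * y) * w ^ 2 ≤ (x * y) * (a * b) :=
            mul_le_mul_of_nonneg_left hWp (mul_nonneg hx hy)
          have h3 : p ^ 2 * q ^ 2 * ((x * y) * w ^ 2) ≤ p ^ 2 * q ^ 2 * ((x * y) * (a * b)) :=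
            mul_le_mul_of_nonneg_left h2 (by positivity)
          nlinarith [sq_nonneg (p ^ 2 * (x * a) - q ^ 2 * (y * b))]
        exact (abs_le_of_sq_le_sq' h1 (by positivity)).2
      have hpq : -(|p| * |q|) ≤ p * q := by
        rw [← abs_mul]; exact neg_abs_le _
      have hmw : 0 ≤ m * w := mul_nonneg hm hw0
      have h4 : -(|p| * |q| * (m * w)) ≤ p * q * (m * w) := by nlinarith
      have h5 : 0 ≤ p ^ 2 * (x * a) + 2 * (p * q * (m * w)) + q ^ 2 * (y * b) := by linarith
      have h6 := mul_nonneg (show (0 : ℝ) ≤ α by linarith) h5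
      calc (0 : ℝ) ≤ α * (p ^ 2 * (x * a) + 2 * (p * q * (m * w)) + q ^ 2 * (y * b)) := h6
        _ = _ := by ring
  have := hmono (Set.left_mem_Icc.2 zero_le_one) (Set.right_mem_Icc.2 zero_le_one) zero_le_one
  simp only [h] at this
  simp only [zero_mul, zero_add, one_mul] at this
  nlinarith

end Pool.Agent.H422Cone
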