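import Pool.Agent.H422Cone.Basic

/-!
# Entrywise powers on the cone over a bipartite graph: decomposition over the edges
-/

set_option autoImplicit false

open Finset

namespace Pool.Agent.H422Cone

/-- For a positive definite nonnegative matrix supported on a bipartite graph there is a positive
vector `v` with `∑_{j ≠ i} B i j * v j ≤ B i i * v i`. -/
theorem exists_pos_vec {V : Type*} [Fintype V] [DecidableEq V] (B : Matrix V V ℝ) (c : V → Bool)
    (hnn : ∀ i j, 0 ≤ B i j) (hsupp : ∀ i j, i ≠ j → c i = c j → B i j = 0) {ε : ℝ} (hε : 0 < ε)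
    (hpd : ∀ x : V → ℝ, ε * ∑ i, x i ^ 2 ≤ ∑ i, ∑ j, x i * B i j * x j) :
    ∃ v : V → ℝ, (∀ i, 0 < v i) ∧ ∀ i, ∑ j ∈ univ.erase i, B i j * v j ≤ B i i * v i := by
  classical
  let M : Matrix V V ℝ := fun i j => if i = j then B i j else - B i j
  let σ : V → ℝ := fun i => if c i then 1 else -1
  have hσ2 : ∀ i, σ i ^ 2 = 1 := by
    intro i; simp only [σ]; split_ifs <;> norm_num
  have hσ : ∀ i j, i ≠ j → c i ≠ c j → σ i * σ j = -1 := by
    intro i j _ hc
    simp only [σ]
    cases h1 : c i <;> cases h2 : c j <;> simp_all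
  have hM : ∀ x : V → ℝ, ε * ∑ i, x i ^ 2 ≤ ∑ i, ∑ j, x i * M i j * x j := by
    intro x
    have h := hpd fun i => σ i * x i
    have e1 : ∑ i, (σ i * x i) ^ 2 = ∑ i, x i ^ 2 := by
      refine sum_congr rfl fun i _ => ?_
      rw [mul_pow, hσ2, one_mul]
    have e2 : ∑ i, ∑ j, (σ i * x i) * B i j * (σ j * x j) = ∑ i, ∑ j, x i * M i j * x j := by
      refine sum_congr rfl fun i _ => sum_congr rfl fun j _ => ?_
      simp only [M]
      by_cases hij : i = j
      · subst hij
        rw [if_pos rfl]
        linear_combination (x i * B i i * x i) * hσ2 i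
      · rw [if_neg hij]
        by_cases hc : c i = c j
        · rw [hsupp i j hij hc]; ring
        · linear_combination (x i * B i j * x j) * hσ i j hij hc
    rw [e1, e2] at h
    exact h
  have hinj : Function.Injective M.mulVec := by
    have hlin : ∀ x : V → ℝ, M.mulVec x = 0 → x = 0 := by
      intro x hx
      have h := hM x
      have e : ∑ i, ∑ j, x i * M i j * x j = 0 := by
        have : ∑ i, ∑ j, x i * M i j * x j = ∑ i, x i * (M.mulVec x) i := by
          refine sum_congr rfl fun i _ => ?_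
          simp only [Matrix.mulVec, dotProduct, mul_sum]
          exact sum_congr rfl fun j _ => by ring
        rw [this, hx]; simp
      rw [e] at h
      have h0 : ∑ i, x i ^ 2 ≤ 0 := by
        by_contra hc
        push Not at hc
        have := mul_pos hε hc
        linarith
      have h1 : ∑ i, x i ^ 2 = 0 := le_antisymm h0 (sum_nonneg fun i _ => sq_nonneg _)
      rw [sum_eq_zero_iff_of_nonneg fun i _ => sq_nonneg _] at h1
      funext i
      exact pow_eq_zero_iff (two_ne_zero) |>.1 (h1 i (mem_univ i))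
    intro x y hxy
    have : M.mulVec (x - y) = 0 := by
      rw [Matrix.mulVec_sub, sub_eq_zero]; exact hxy
    exact sub_eq_zero.1 (hlin _ this)
  have hsurj : Function.Surjective M.mulVec := by
    have h' : Function.Injective (Matrix.mulVecLin M) := hinj
    have h'' := (LinearMap.injective_iff_surjective (f := Matrix.mulVecLin M)).1 h'
    exact h''
  obtain ⟨v, hv⟩ := hsurj (fun _ => 1)
  have hvi : ∀ i, ∑ j, M i j * v j = 1 := by
    intro i
    have := congrFun hv i
    simpa [Matrix.mulVec, dotProduct] using this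
  -- the negative part vanishes
  let w : V → ℝ := fun i => max (-(v i)) 0
  let p : V → ℝ := fun i => max (v i) 0
  have hw0 : ∀ i, 0 ≤ w i := fun i => le_max_right _ _
  have hp0 : ∀ i, 0 ≤ p i := fun i => le_max_right _ _
  have hvw : ∀ i, v i = p i - w i := by
    intro i
    simp only [w, p]
    rcases le_total 0 (v i) with h | h
    · rw [max_eq_left h, max_eq_right (by linarith)]; ring
    · rw [max_eq_right h, max_eq_left (by linarith)]; ring
  have hpw : ∀ i, w i * p i = 0 := by
    intro i
    simp only [w, p]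
    rcases le_total 0 (v i) with h | h
    · rw [max_eq_left h, max_eq_right (show -(v i) ≤ 0 by linarith)]; ring
    · rw [max_eq_right h]; ring
  have h1 : ∑ i, w i = ∑ i, ∑ j, w i * M i j * p j - ∑ i, ∑ j, w i * M i j * w j := by
    have : ∑ i, w i = ∑ i, w i * ∑ j, M i j * v j := by
      refine sum_congr rfl fun i _ => ?_
      rw [hvi i, mul_one]
    rw [this, ← sum_sub_distrib]
    refine sum_congr rfl fun i _ => ?_
    rw [mul_sum, ← sum_sub_distrib]
    refine sum_congr rfl fun j _ => ?_
    rw [hvw j]; ring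
  have h2 : ∑ i, ∑ j, w i * M i j * p j ≤ 0 := by
    refine sum_nonpos fun i _ => sum_nonpos fun j _ => ?_
    by_cases hij : i = j
    · subst hij
      have h0 : w i * M i i * p i = 0 := by linear_combination M i i * hpw i
      rw [h0]
    · have : M i j = -B i j := if_neg hij
      rw [this]
      have := mul_nonneg (mul_nonneg (hw0 i) (hnn i j)) (hp0 j)
      linarith
  have h3 := hM w
  have h4 : 0 ≤ ∑ i, w i := sum_nonneg fun i _ => hw0 i
  have h5 : ∑ i, w i ^ 2 ≤ 0 := by
    by_contra hc
    push Not at hc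
    have := mul_pos hε hc
    linarith
  have h6 : ∀ i, w i = 0 := by
    have h7 : ∑ i, w i ^ 2 = 0 := le_antisymm h5 (sum_nonneg fun i _ => sq_nonneg _)
    rw [sum_eq_zero_iff_of_nonneg fun i _ => sq_nonneg _] at h7
    intro i
    exact pow_eq_zero_iff (two_ne_zero) |>.1 (h7 i (mem_univ i))
  have hv0 : ∀ i, 0 ≤ v i := by
    intro i
    rw [hvw i, h6 i, sub_zero]; exact hp0 i
  have hrow : ∀ i, B i i * v i - ∑ j ∈ univ.erase i, B i j * v j = 1 := by
    intro i
    have h := hvi i
    rw [← add_sum_erase univ _ (mem_univ i)] at h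
    have e1 : M i i = B i i := if_pos rfl
    have e2 : ∑ j ∈ univ.erase i, M i j * v j = -∑ j ∈ univ.erase i, B i j * v j := by
      rw [← sum_neg_distrib]
      refine sum_congr rfl fun j hj => ?_
      have hij : i ≠ j := (ne_of_mem_erase hj).symm
      have : M i j = -B i j := if_neg hij
      rw [this]; ring
    rw [e1, e2] at h
    linarith
  refine ⟨v, fun i => ?_, fun i => by have := hrow i; linarith⟩
  have h := hrow i
  have hs : 0 ≤ ∑ j ∈ univ.erase i, B i j * v j :=
    sum_nonneg fun j _ => mul_nonneg (hnn i j) (hv0 j)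
  have : 0 < B i i * v i := by linarith
  rcases eq_or_lt_of_le (hv0 i) with h0 | h0
  · rw [← h0] at this; simp at this
  · exact h0

/-- **Key lemma.** If `B` is positive definite, nonnegative and supported on a bipartite graph and
`z ≥ 0`, then the matrix `(B + z zᵀ)^{∘α}` is positive semidefinite for every `α ≥ 1`. -/
theorem key {V : Type*} [Fintype V] [DecidableEq V] (B : Matrix V V ℝ) (c : V → Bool)
    (hsym : ∀ i j, B i j = B j i)
    (hnn : ∀ i j, 0 ≤ B i j) (hsupp : ∀ i j, i ≠ j → c i = c j → B i j = 0) {ε : ℝ} (hε : 0 < ε)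
    (hpd : ∀ x : V → ℝ, ε * ∑ i, x i ^ 2 ≤ ∑ i, ∑ j, x i * B i j * x j)
    (z : V → ℝ) (hz : ∀ i, 0 ≤ z i) {α : ℝ} (hα : 1 ≤ α) (y : V → ℝ) :
    0 ≤ ∑ i, ∑ j, y i * (B i j + z i * z j) ^ α * y j := by
  obtain ⟨v, hv, hrow⟩ := exists_pos_vec B c hnn hsupp hε hpd
  let g : ℝ → ℝ → ℝ := fun x s => (x + s) ^ α - s ^ α
  let a : V → V → ℝ := fun i j => B i j * v j / v i
  have ha0 : ∀ i j, 0 ≤ a i j := fun i j => div_nonneg (mul_nonneg (hnn i j) (hv j).le) (hv i).le
  have haa : ∀ i j, B i j ^ 2 = a i j * a j i := by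
    intro i j
    simp only [a]
    have h1 := (hv i).ne'
    have h2 := (hv j).ne'
    rw [hsym j i]
    field_simp
  have hd : ∀ i, ∑ j ∈ univ.erase i, g (a i j) (z i * z i) ≤ g (B i i) (z i * z i) := by
    intro i
    have h1 := superadd_sum (univ.erase i) hα (mul_self_nonneg (z i)) (a i)
      fun j _ => ha0 i j
    refine h1.trans ?_
    apply mono hα (mul_self_nonneg (z i)) (sum_nonneg fun j _ => ha0 i j)
    have : ∑ j ∈ univ.erase i, a i j = (∑ j ∈ univ.erase i, B i j * v j) / v i := by
      rw [sum_div]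
    rw [this, div_le_iff₀ (hv i)]
    exact hrow i
  -- split off the rank one part
  have hsplit : ∑ i, ∑ j, y i * (B i j + z i * z j) ^ α * y j
      = (∑ i, y i * z i ^ α) ^ 2 + ∑ i, ∑ j, y i * g (B i j) (z i * z j) * y j := by
    rw [sq, sum_mul_sum, ← sum_add_distrib]
    refine sum_congr rfl fun i _ => ?_
    rw [← sum_add_distrib]
    refine sum_congr rfl fun j _ => ?_
    simp only [g]
    rw [Real.mul_rpow (hz i) (hz j)]
    ring
  rw [hsplit]
  have hmain : 0 ≤ ∑ i, ∑ j, y i * g (B i j) (z i * z j) * y j := by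
    have e1 : ∑ i, ∑ j, y i * g (B i j) (z i * z j) * y j
        = ∑ i, y i ^ 2 * g (B i i) (z i * z i)
          + ∑ i, ∑ j ∈ univ.erase i, y i * g (B i j) (z i * z j) * y j := by
      rw [← sum_add_distrib]
      refine sum_congr rfl fun i _ => ?_
      rw [← add_sum_erase univ _ (mem_univ i)]
      ring
    have e2 : ∑ i, y i ^ 2 * g (B i i) (z i * z i)
        ≥ ∑ i, ∑ j ∈ univ.erase i, y i ^ 2 * g (a i j) (z i * z i) := by
      refine sum_le_sum fun i _ => ?_
      rw [← mul_sum]
      exact mul_le_mul_of_nonneg_left (hd i) (sq_nonneg _)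
    have eswap : ∀ F : V → V → ℝ, ∑ i, ∑ j ∈ univ.erase i, F i j
        = ∑ i, ∑ j ∈ univ.erase i, F j i := by
      intro F
      have h1 : ∀ G : V → V → ℝ, ∑ i, ∑ j ∈ univ.erase i, G i j
          = ∑ i, ∑ j, if i = j then 0 else G i j := by
        intro G
        refine sum_congr rfl fun i _ => ?_
        rw [← add_sum_erase univ (fun j => if i = j then 0 else G i j) (mem_univ i)]
        simp only [if_true, zero_add]
        refine sum_congr rfl fun j hj => ?_
        rw [if_neg (ne_of_mem_erase hj).symm]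
      rw [h1 F, h1 fun i j => F j i, sum_comm]
      refine sum_congr rfl fun i _ => sum_congr rfl fun j _ => ?_
      by_cases h : i = j
      · rw [if_pos h, if_pos h.symm]
      · rw [if_neg h, if_neg (Ne.symm h)]
    have e3 : ∑ i, ∑ j ∈ univ.erase i, y i ^ 2 * g (a i j) (z i * z i)
        + ∑ i, ∑ j ∈ univ.erase i, y i * g (B i j) (z i * z j) * y j
        = ∑ i, ∑ j ∈ univ.erase i, (1 / 2) * (y i ^ 2 * g (a i j) (z i * z i)
          + 2 * (y i * y j) * g (B i j) (z i * z j) + y j ^ 2 * g (a j i) (z j * z j)) := by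
      have h1 : ∑ i, ∑ j ∈ univ.erase i, y i ^ 2 * g (a i j) (z i * z i)
          = (1 / 2) * ∑ i, ∑ j ∈ univ.erase i, y i ^ 2 * g (a i j) (z i * z i)
            + (1 / 2) * ∑ i, ∑ j ∈ univ.erase i, y j ^ 2 * g (a j i) (z j * z j) := by
        rw [← eswap fun i j => y i ^ 2 * g (a i j) (z i * z i)]
        ring
      rw [h1, mul_sum, mul_sum, ← sum_add_distrib, ← sum_add_distrib]
      refine sum_congr rfl fun i _ => ?_
      rw [mul_sum, mul_sum, ← sum_add_distrib, ← sum_add_distrib]
      refine sum_congr rfl fun j _ => ?_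
      ring
    have e4 : 0 ≤ ∑ i, ∑ j ∈ univ.erase i, (1 / 2) * (y i ^ 2 * g (a i j) (z i * z i)
          + 2 * (y i * y j) * g (B i j) (z i * z j) + y j ^ 2 * g (a j i) (z j * z j)) := by
      refine sum_nonneg fun i _ => sum_nonneg fun j _ => ?_
      have := block (p := y i) (q := y j) hα (ha0 i j) (ha0 j i) (hnn i j)
        (mul_self_nonneg (z i)) (mul_self_nonneg (z j)) (mul_nonneg (hz i) (hz j)) (haa i j)
        (by ring)
      simp only [g]
      linarith
    rw [e1]
    linarith
  positivity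

end Pool.Agent.H422Cone
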