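import Pool.Agent.H422Cone.FH
import Pool.Agent.H422Cone.Decomp

/-!
# Sums of positive semidefinite matrices supported on cliques
-/

set_option autoImplicit false

open Finset

namespace Pool.Agent.H422Cone

/-- Sums of positive semidefinite matrices, each supported on a clique with at most `k` vertices. -/
inductive CliqueSum {V : Type} [Fintype V] (G : SimpleGraph V) (k : ℕ) : Matrix V V ℝ → Prop
  | zero : CliqueSum G k 0
  | add (A P : Matrix V V ℝ) (S : Finset V) (hA : CliqueSum G k A) (hP : P.PosSemidef)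
      (hS : ∀ i j, P i j ≠ 0 → i ∈ S ∧ j ∈ S) (hG : ∀ i ∈ S, ∀ j ∈ S, i ≠ j → G.Adj i j)
      (hk : S.card ≤ k) : CliqueSum G k (A + P)

theorem CliqueSum.single {V : Type} [Fintype V] {G : SimpleGraph V} {k : ℕ} (P : Matrix V V ℝ)
    (S : Finset V) (hP : P.PosSemidef) (hS : ∀ i j, P i j ≠ 0 → i ∈ S ∧ j ∈ S)
    (hG : ∀ i ∈ S, ∀ j ∈ S, i ≠ j → G.Adj i j) (hk : S.card ≤ k) : CliqueSum G k P := by
  have := CliqueSum.add 0 P S (CliqueSum.zero (G := G) (k := k)) hP hS hG hk
  rwa [zero_add] at this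

theorem CliqueSum.add' {V : Type} [Fintype V] {G : SimpleGraph V} {k : ℕ} {A B : Matrix V V ℝ}
    (hA : CliqueSum G k A) (hB : CliqueSum G k B) : CliqueSum G k (A + B) := by
  induction hB with
  | zero => rwa [add_zero]
  | add B P S _ hP hS hG hk ih =>
    rw [← add_assoc]
    exact CliqueSum.add _ P S ih hP hS hG hk

theorem CliqueSum.sum {V : Type} [Fintype V] {G : SimpleGraph V} {k : ℕ} {ι : Type*}
    (t : Finset ι) (F : ι → Matrix V V ℝ) (h : ∀ i ∈ t, CliqueSum G k (F i)) :
    CliqueSum G k (∑ i ∈ t, F i) := by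
  classical
  induction t using Finset.induction_on with
  | empty => rw [sum_empty]; exact CliqueSum.zero
  | insert a t ha ih =>
    rw [sum_insert ha]
    exact (h a (mem_insert_self a t)).add' (ih fun i hi => h i (mem_insert_of_mem hi))

/-- A clique-supported positive semidefinite matrix times a power of a nonnegative positive
semidefinite matrix. -/
theorem psd_mul_pow {V : Type} [Fintype V] {k : ℕ} (P : Matrix V V ℝ) (S : Finset V)
    (hP : P.PosSemidef) (hS : ∀ i j, P i j ≠ 0 → i ∈ S ∧ j ∈ S) (hk : S.card ≤ k)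
    (M : Matrix V V ℝ) (hM : M.PosSemidef) (hnn : ∀ i j, 0 ≤ M i j) {γ : ℝ} (hγ0 : 0 ≤ γ)
    (hγ : (k : ℝ) - 2 ≤ γ) : Matrix.PosSemidef (fun i j => P i j * M i j ^ γ : Matrix V V ℝ) := by
  classical
  let e : {x // x ∈ S} → V := fun x => x.1
  have hF := fh (V := {x // x ∈ S}) (k := k) (by simpa using hk) hγ0 hγ (M.submatrix e e)
    (hM.submatrix e) (fun i j => hnn _ _)
  have hH := (psd_iff _).1 ((hP.submatrix e).hadamard hF)
  obtain ⟨hPs, _⟩ := (psd_iff P).1 hP
  obtain ⟨hMs, _⟩ := (psd_iff M).1 hM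
  rw [psd_iff]
  refine ⟨fun i j => by rw [hPs i j, hMs i j], fun x => ?_⟩
  have h1 := hH.2 fun i => x i.1
  refine h1.trans (le_of_eq ?_)
  have hz : ∀ i, i ∉ S → ∀ j, P i j = 0 := by
    intro i hi j
    by_contra h
    exact hi (hS i j h).1
  have hz' : ∀ j, j ∉ S → ∀ i, P i j = 0 := by
    intro j hj i
    by_contra h
    exact hj (hS i j h).2
  have e1 : ∑ i, ∑ j, x i * (P i j * M i j ^ γ) * x j
      = ∑ i ∈ S, ∑ j ∈ S, x i * (P i j * M i j ^ γ) * x j := by
    rw [← sum_subset (subset_univ S)]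
    · refine sum_congr rfl fun i _ => ?_
      rw [← sum_subset (subset_univ S)]
      intro j _ hj
      rw [hz' j hj i]; ring
    · intro i _ hi
      refine sum_eq_zero fun j _ => ?_
      rw [hz i hi j]; ring
  rw [e1, ← sum_coe_sort S]
  refine sum_congr rfl fun i _ => ?_
  rw [← sum_coe_sort S]
  rfl

theorem CliqueSum.mul_pow {V : Type} [Fintype V] {G : SimpleGraph V} {k : ℕ} {A : Matrix V V ℝ}
    (hA : CliqueSum G k A) (M : Matrix V V ℝ) (hM : M.PosSemidef) (hnn : ∀ i j, 0 ≤ M i j) {γ : ℝ}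
    (hγ0 : 0 ≤ γ) (hγ : (k : ℝ) - 2 ≤ γ) :
    Matrix.PosSemidef (fun i j => A i j * M i j ^ γ : Matrix V V ℝ) := by
  induction hA with
  | zero =>
    have : (fun i j => (0 : Matrix V V ℝ) i j * M i j ^ γ : Matrix V V ℝ) = 0 := by
      ext i j; simp
    rw [this]
    exact Matrix.PosSemidef.zero
  | add A P S _ hP hS hG hk ih =>
    have h1 := ih.add (psd_mul_pow P S hP hS hk M hM hnn hγ0 hγ)
    convert h1 using 1
    ext i j
    simp only [Matrix.add_apply]
    ring

theorem CliqueSum.posSemidef {V : Type} [Fintype V] {G : SimpleGraph V} {k : ℕ}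
    {A : Matrix V V ℝ} (hA : CliqueSum G k A) : A.PosSemidef := by
  induction hA with
  | zero => exact Matrix.PosSemidef.zero
  | add A P S _ hP _ _ _ ih => exact ih.add hP

/-- **Powers on clique-decomposable matrices.** If `A` is a nonnegative sum of positive
semidefinite matrices supported on cliques of size at most `k`, then `A^{∘α}` is positive
semidefinite for every `α ≥ k - 1`. -/
theorem CliqueSum.pow {V : Type} [Fintype V] {G : SimpleGraph V} {k : ℕ} (hk : 2 ≤ k)
    {A : Matrix V V ℝ} (hA : CliqueSum G k A) (hnn : ∀ i j, 0 ≤ A i j) {α : ℝ}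
    (hα : (k : ℝ) - 1 ≤ α) (y : V → ℝ) : 0 ≤ ∑ i, ∑ j, y i * A i j ^ α * y j := by
  have hk' : (2 : ℝ) ≤ k := by exact_mod_cast hk
  have h := (psd_iff _).1 (hA.mul_pow A hA.posSemidef hnn (γ := α - 1) (by linarith)
    (by linarith))
  have h1 := h.2 y
  refine h1.trans (le_of_eq ?_)
  refine sum_congr rfl fun i _ => sum_congr rfl fun j _ => ?_
  have e : A i j * A i j ^ (α - 1) = A i j ^ α := by
    rcases eq_or_lt_of_le (hnn i j) with h0 | h0
    · rw [← h0, zero_mul, Real.zero_rpow (by linarith)]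
    · rw [mul_comm, ← Real.rpow_add_one h0.ne']
      congr 1; ring
  rw [e]

end Pool.Agent.H422Cone
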