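import Pool.Agent.H422Cone.Dec

/-!
# Clique decompositions pass to cones
-/

set_option autoImplicit false

open Finset

namespace Pool.Agent.H422Cone

/-- Positive definite matrices are onto. -/
theorem exists_solve {V : Type} [Fintype V] (B : Matrix V V ℝ) {ε : ℝ} (hε : 0 < ε)
    (hpd : ∀ x : V → ℝ, ε * ∑ i, x i ^ 2 ≤ ∑ i, ∑ j, x i * B i j * x j) (u : V → ℝ) :
    ∃ w : V → ℝ, ∀ i, ∑ j, B i j * w j = u i := by
  have hinj : Function.Injective B.mulVec := by
    have hlin : ∀ x : V → ℝ, B.mulVec x = 0 → x = 0 := by
      intro x hx
      have h := hpd x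
      have e : ∑ i, ∑ j, x i * B i j * x j = 0 := by
        have : ∑ i, ∑ j, x i * B i j * x j = ∑ i, x i * (B.mulVec x) i := by
          refine sum_congr rfl fun i _ => ?_
          simp only [Matrix.mulVec, dotProduct, mul_sum]
          exact sum_congr rfl fun j _ => by ring
        rw [this, hx]; simp
      rw [e] at h
      have h0 : ∑ i, x i ^ 2 ≤ 0 := by
        by_contra hc
        push Not at hc
        have := mul_pos hε hc
        linarith
      have h1 : ∑ i, x i ^ 2 = 0 := le_antisymm h0 (sum_nonneg fun i _ => sq_nonneg _)
      rw [sum_eq_zero_iff_of_nonneg fun i _ => sq_nonneg _] at h1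
      funext i
      exact pow_eq_zero_iff (two_ne_zero) |>.1 (h1 i (mem_univ i))
    intro x y hxy
    have : B.mulVec (x - y) = 0 := by
      rw [Matrix.mulVec_sub, sub_eq_zero]; exact hxy
    exact sub_eq_zero.1 (hlin _ this)
  have hsurj : Function.Surjective B.mulVec := by
    have h' : Function.Injective (Matrix.mulVecLin B) := hinj
    have h'' := (LinearMap.injective_iff_surjective (f := Matrix.mulVecLin B)).1 h'
    exact h''
  obtain ⟨w, hw⟩ := hsurj u
  refine ⟨w, fun i => ?_⟩
  have := congrFun hw i
  simpa [Matrix.mulVec, dotProduct] using this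

/-- The lifting matrix. -/
noncomputable def lm {V : Type} (w : V → ℝ) : Matrix (Option V) V ℝ := by
  classical
  exact fun p i => p.elim (w i) fun q => if q = i then 1 else 0

theorem lift_apply {V : Type} [Fintype V] (w : V → ℝ) (X : Matrix V V ℝ) (p q : Option V) :
    (lm w * X * (lm w).transpose) p q = ∑ j, (∑ i, lm w p i * X i j) * lm w q j := by
  simp only [Matrix.mul_apply, Matrix.transpose_apply]

theorem lift_some_some {V : Type} [Fintype V] (w : V → ℝ) (X : Matrix V V ℝ) (a b : V) :
    (lm w * X * (lm w).transpose) (some a) (some b) = X a b := by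
  classical
  rw [lift_apply]
  simp [lm]

theorem lift_none_some {V : Type} [Fintype V] (w : V → ℝ) (X : Matrix V V ℝ) (b : V) :
    (lm w * X * (lm w).transpose) none (some b) = ∑ i, w i * X i b := by
  classical
  rw [lift_apply]
  simp [lm]

theorem lift_some_none {V : Type} [Fintype V] (w : V → ℝ) (X : Matrix V V ℝ) (a : V) :
    (lm w * X * (lm w).transpose) (some a) none = ∑ j, X a j * w j := by
  classical
  rw [lift_apply]
  simp [lm]

theorem lift_none_none {V : Type} [Fintype V] (w : V → ℝ) (X : Matrix V V ℝ) :
    (lm w * X * (lm w).transpose) none none = ∑ j, (∑ i, w i * X i j) * w j := by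
  rw [lift_apply]
  simp [lm]

theorem CliqueSum.lift {V : Type} [Fintype V] {G : SimpleGraph V} {k : ℕ} {A : Matrix V V ℝ}
    (hA : CliqueSum G k A) (w : V → ℝ) :
    CliqueSum (cone G) (k + 1) (lm w * A * (lm w).transpose) := by
  induction hA with
  | zero => simp only [Matrix.mul_zero, Matrix.zero_mul]; exact CliqueSum.zero
  | add A P S _ hP hS hG hk ih =>
    rw [Matrix.mul_add, Matrix.add_mul]
    have hz : ∀ i, i ∉ S → ∀ j, P i j = 0 := by
      intro i hi j
      by_contra h
      exact hi (hS i j h).1
    have hz' : ∀ j, j ∉ S → ∀ i, P i j = 0 := by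
      intro j hj i
      by_contra h
      exact hj (hS i j h).2
    refine CliqueSum.add _ _ (insertNone S) ih ?_ ?_ ?_ ?_
    · have := hP.mul_mul_conjTranspose_same (lm w)
      simpa using this
    · intro p q hpq
      constructor
      · rw [mem_insertNone]
        intro a ha
        by_contra hcon
        have hpa : p = some a := by simpa using ha
        subst hpa
        apply hpq
        rcases q with _ | b
        · rw [lift_some_none]
          exact sum_eq_zero fun j _ => by rw [hz a hcon j, zero_mul]
        · rw [lift_some_some]; exact hz a hcon b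
      · rw [mem_insertNone]
        intro b hb
        by_contra hcon
        have hqb : q = some b := by simpa using hb
        subst hqb
        apply hpq
        rcases p with _ | a
        · rw [lift_none_some]
          exact sum_eq_zero fun j _ => by rw [hz' b hcon j, mul_zero]
        · rw [lift_some_some]; exact hz' b hcon a
    · intro p hp q hq hpq
      rw [mem_insertNone] at hp hq
      rcases p with _ | a <;> rcases q with _ | b
      · exact absurd rfl hpq
      · trivial
      · trivial
      · exact hG a (hp a rfl) b (hq b rfl) fun h => hpq (by rw [h])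
    · rw [card_insertNone]; omega

/-- Clique decompositions pass to the cone. -/
theorem dec_cone {V : Type} [Fintype V] (G : SimpleGraph V) (k : ℕ) (h : Dec G k) :
    Dec (cone G) (k + 1) := by
  classical
  intro A ε hε hsym hnn hsupp hpd
  let B : Matrix V V ℝ := fun i j => A (some i) (some j)
  have hB : ∀ y : V → ℝ, ε * ∑ i, y i ^ 2 ≤ ∑ i, ∑ j, y i * B i j * y j := by
    intro y
    have h := hpd (fun i => i.elim 0 y)
    rw [quad_option A hsym, Fintype.sum_option] at h
    simpa using h
  have hBC : CliqueSum G k B := h B ε hε (fun i j => hsym _ _) (fun i j => hnn _ _)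
    (fun i j hij hadj => hsupp (some i) (some j) (by simpa using hij) hadj) hB
  obtain ⟨w, hw⟩ := exists_solve B hε hB fun i => A none (some i)
  have hw' : ∀ j, ∑ i, w i * B i j = A none (some j) := by
    intro j
    rw [← hw j]
    exact sum_congr rfl fun i _ => by
      simp only [B]; rw [hsym (some i) (some j)]; ring
  let D : Matrix (Option V) (Option V) ℝ := fun p q =>
    if p = none ∧ q = none then A none none - ∑ j, A none (some j) * w j else 0
  have hslack : 0 ≤ A none none - ∑ j, A none (some j) * w j := by
    have h := hpd (fun i => i.elim 1 fun i => -w i)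
    rw [quad_option A hsym] at h
    have h0 : 0 ≤ ε * ∑ i : Option V, (i.elim 1 fun i => -w i) ^ 2 :=
      mul_nonneg hε.le (sum_nonneg fun i _ => sq_nonneg _)
    have h1 := h0.trans h
    simp only [Option.elim_none, Option.elim_some] at h1
    have e1 : ∑ i, A none (some i) * -w i = -∑ i, A none (some i) * w i := by
      rw [← sum_neg_distrib]
      exact sum_congr rfl fun i _ => by ring
    have e2 : ∑ i, ∑ j, -w i * A (some i) (some j) * -w j = ∑ i, A none (some i) * w i := by
      refine sum_congr rfl fun i _ => ?_
      rw [← hw i, sum_mul]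
      refine sum_congr rfl fun j _ => ?_
      simp only [B]; ring
    rw [e1, e2] at h1
    linarith
  have hA : A = lm w * B * (lm w).transpose + D := by
    ext p q
    rw [Matrix.add_apply]
    rcases p with _ | a <;> rcases q with _ | b
    · rw [lift_none_none]
      simp only [hw', D, and_self, if_true]
      ring
    · rw [lift_none_some, hw']
      simp [D]
    · rw [lift_some_none, hw, hsym]
      simp [D]
    · rw [lift_some_some]
      simp [D, B]
  rw [hA]
  refine CliqueSum.add' (hBC.lift w) (CliqueSum.single D {none} ?_ ?_ ?_ ?_)
  · rw [psd_iff]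
    refine ⟨fun l m => ?_, fun x => ?_⟩
    · simp only [D]
      by_cases h1 : l = none <;> by_cases h2 : m = none <;> simp [h1, h2]
    · refine sum_nonneg fun l _ => sum_nonneg fun m _ => ?_
      simp only [D]
      by_cases h : l = none ∧ m = none
      · rw [if_pos h, h.1, h.2]
        have := mul_nonneg hslack (mul_self_nonneg (x none))
        calc (0 : ℝ) ≤ _ := this
          _ = _ := by ring
      · rw [if_neg h]; simp
  · intro l m hlm
    simp only [D] at hlm
    have : l = none ∧ m = none := by
      by_contra h; exact hlm (if_neg h)
    simp [this.1, this.2]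
  · intro l hl m hm hlm
    simp only [mem_singleton] at hl hm
    exact absurd (hl.trans hm.symm) hlm
  · simp

end Pool.Agent.H422Cone
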