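import Pool.Agent.H422Cone.Clique

/-!
# Clique decompositions: bipartite graphs and cones
-/

set_option autoImplicit false

open Finset

namespace Pool.Agent.H422Cone

/-- The graph obtained by adding one new vertex adjacent to every vertex of `G`. -/
def cone {V : Type} (G : SimpleGraph V) : SimpleGraph (Option V) where
  Adj a b := match a, b with
    | none, none => False
    | none, some _ => True
    | some _, none => True
    | some u, some v => G.Adj u v
  symm := ⟨by
    rintro (_ | u) (_ | v) h
    · exact h
    · trivial
    · trivial
    · exact SimpleGraph.Adj.symm (G := G) h⟩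
  loopless := ⟨by
    rintro (_ | u) h
    · exact h
    · exact G.loopless.irrefl u h⟩

/-- Every uniformly positive definite nonnegative matrix supported on `G` is a sum of positive
semidefinite matrices supported on cliques with at most `k` vertices. -/
def Dec {V : Type} [Fintype V] (G : SimpleGraph V) (k : ℕ) : Prop :=
  ∀ (A : Matrix V V ℝ) (ε : ℝ), 0 < ε → (∀ i j, A i j = A j i) → (∀ i j, 0 ≤ A i j) →
    (∀ i j, i ≠ j → ¬ G.Adj i j → A i j = 0) →
    (∀ x : V → ℝ, ε * ∑ i, x i ^ 2 ≤ ∑ i, ∑ j, x i * A i j * x j) → CliqueSum G k A

/-- A rank one positive semidefinite matrix. -/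
theorem rank_one {V : Type} [Fintype V] (r : V → ℝ) :
    Matrix.PosSemidef (fun i j => r i * r j : Matrix V V ℝ) := by
  rw [psd_iff]
  refine ⟨fun i j => mul_comm _ _, fun x => ?_⟩
  have e : ∑ i, ∑ j, x i * (r i * r j) * x j = (∑ i, x i * r i) ^ 2 := by
    rw [sq, sum_mul_sum]
    refine sum_congr rfl fun i _ => sum_congr rfl fun j _ => ?_
    ring
  rw [e]; positivity

/-- Bipartite graphs decompose over their edges. -/
theorem dec_bipartite {V : Type} [Fintype V] (G : SimpleGraph V) (c : V → Bool)
    (hc : ∀ i j, c i = c j → ¬ G.Adj i j) : Dec G 2 := by
  classical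
  intro A ε hε hsym hnn hsupp hpd
  obtain ⟨v, hv, hrow⟩ := exists_pos_vec A c hnn
    (fun i j hij hcc => hsupp i j hij (hc i j hcc)) hε hpd
  let a : V → V → ℝ := fun i j => A i j * v j / v i
  have ha0 : ∀ i j, 0 ≤ a i j := fun i j => div_nonneg (mul_nonneg (hnn i j) (hv j).le) (hv i).le
  have haa : ∀ i j, Real.sqrt (a i j) * Real.sqrt (a j i) = A i j := by
    intro i j
    rw [← Real.sqrt_mul (ha0 i j), Real.sqrt_eq_iff_mul_self_eq
      (mul_nonneg (ha0 i j) (ha0 j i)) (hnn i j)]
    simp only [a]
    have h1 := (hv i).ne'
    have h2 := (hv j).ne'
    rw [hsym j i]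
    field_simp
  have hslack : ∀ i, 0 ≤ A i i - ∑ j ∈ univ.erase i, a i j := by
    intro i
    have : ∑ j ∈ univ.erase i, a i j = (∑ j ∈ univ.erase i, A i j * v j) / v i := by
      rw [sum_div]
    rw [this, sub_nonneg, div_le_iff₀ (hv i)]
    exact hrow i
  -- the rank one vector of the edge `i j`
  let ρ : V → V → V → ℝ := fun i j l =>
    (if l = i then Real.sqrt (a i j) else 0) + (if l = j then Real.sqrt (a j i) else 0)
  let P : V → V → Matrix V V ℝ := fun i j => fun l m =>
    if i = j then 0 else (1 / 2) * (ρ i j l * ρ i j m)
  let D : V → Matrix V V ℝ := fun i => fun l m =>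
    if l = i ∧ m = i then A i i - ∑ j ∈ univ.erase i, a i j else 0
  have hA : A = ∑ i, ∑ j, P i j + ∑ i, D i := by
    ext l m
    rw [Matrix.add_apply, Matrix.sum_apply, Matrix.sum_apply]
    have hD : ∑ i, D i l m = if l = m then A l l - ∑ j ∈ univ.erase l, a l j else 0 := by
      simp only [D]
      by_cases hlm : l = m
      · subst hlm
        rw [if_pos rfl, sum_eq_single l]
        · rw [if_pos ⟨rfl, rfl⟩]
        · intro i _ hi
          rw [if_neg fun h => hi h.1.symm]
        · intro h; exact absurd (mem_univ l) h
      · rw [if_neg hlm]
        refine sum_eq_zero fun i _ => ?_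
        rw [if_neg fun h => hlm (h.1.trans h.2.symm)]
    have hP : ∑ i, (∑ j, P i j) l m = if l = m then ∑ j ∈ univ.erase l, a l j else A l m := by
      simp only [Matrix.sum_apply]
      have e1 : ∀ i j, P i j l m = if i = j then 0 else
          (1 / 2) * ((if l = i ∧ m = i then a i j else 0) + (if l = j ∧ m = j then a j i else 0)
            + (if l = i ∧ m = j then A i j else 0) + (if l = j ∧ m = i then A i j else 0)) := by
        intro i j
        simp only [P, ρ]
        by_cases hij : i = j
        · rw [if_pos hij, if_pos hij]
        · rw [if_neg hij, if_neg hij]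
          congr 1
          have s1 : Real.sqrt (a i j) * Real.sqrt (a i j) = a i j := Real.mul_self_sqrt (ha0 i j)
          have s2 : Real.sqrt (a j i) * Real.sqrt (a j i) = a j i := Real.mul_self_sqrt (ha0 j i)
          have s3 := haa i j
          have s4 : Real.sqrt (a j i) * Real.sqrt (a i j) = A i j := by rw [mul_comm]; exact s3
          by_cases h1 : l = i <;> by_cases h2 : l = j <;> by_cases h3 : m = i <;>
            by_cases h4 : m = j <;>
            first
              | (exact absurd (h1.symm.trans h2) hij)
              | (exact absurd (h3.symm.trans h4) hij)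
              | (simp only [h1, h2, h3, h4, hij, Ne.symm hij, if_true, if_false, and_true,
                  and_false, and_self, true_and, false_and, add_zero, zero_add, mul_zero,
                  zero_mul, s1, s2, s3, s4])
      simp only [e1]
      have key : ∀ F : V → V → ℝ, ∑ i, ∑ j, (if i = j then 0 else F i j)
          = ∑ i, ∑ j ∈ univ.erase i, F i j := by
        intro F
        refine sum_congr rfl fun i _ => ?_
        rw [← add_sum_erase univ (fun j => if i = j then 0 else F i j) (mem_univ i)]
        simp only [if_true, zero_add]
        refine sum_congr rfl fun j hj => ?_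
        rw [if_neg (ne_of_mem_erase hj).symm]
      rw [key]
      simp only [← mul_sum, sum_add_distrib]
      have t1 : ∑ i, ∑ j ∈ univ.erase i, (if l = i ∧ m = i then a i j else 0)
          = if l = m then ∑ j ∈ univ.erase l, a l j else 0 := by
        rw [sum_eq_single l]
        · by_cases hlm : l = m
          · subst hlm; simp
          · rw [if_neg hlm]
            refine sum_eq_zero fun j _ => ?_
            rw [if_neg fun h => hlm h.2.symm]
        · intro i _ hi
          refine sum_eq_zero fun j _ => ?_
          rw [if_neg fun h => hi h.1.symm]
        · intro h; exact absurd (mem_univ l) h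
      have t2 : ∑ i, ∑ j ∈ univ.erase i, (if l = j ∧ m = j then a j i else 0)
          = if l = m then ∑ j ∈ univ.erase l, a l j else 0 := by
        rw [← key, sum_comm]
        rw [sum_eq_single l]
        · by_cases hlm : l = m
          · subst hlm
            rw [if_pos rfl, ← add_sum_erase univ _ (mem_univ l)]
            simp only [if_true, zero_add, and_self]
            refine sum_congr rfl fun j hj => ?_
            rw [if_neg (ne_of_mem_erase hj)]
          · rw [if_neg hlm]
            refine sum_eq_zero fun j _ => ?_
            rw [if_neg fun h : l = l ∧ m = l => hlm h.2.symm]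
            simp
        · intro i _ hi
          refine sum_eq_zero fun j _ => ?_
          rw [if_neg fun h : l = i ∧ m = i => hi h.1.symm]
          simp
        · intro h; exact absurd (mem_univ l) h
      have t3 : ∑ i, ∑ j ∈ univ.erase i, (if l = i ∧ m = j then A i j else 0)
          = if l = m then 0 else A l m := by
        rw [sum_eq_single l]
        · by_cases hlm : l = m
          · subst hlm
            rw [if_pos rfl]
            refine sum_eq_zero fun j hj => ?_
            rw [if_neg fun h => (ne_of_mem_erase hj) h.2.symm]
          · rw [if_neg hlm, sum_eq_single m]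
            · rw [if_pos ⟨rfl, rfl⟩]
            · intro j _ hj
              rw [if_neg fun h => hj h.2.symm]
            · intro h
              exact absurd (mem_erase.2 ⟨Ne.symm hlm, mem_univ m⟩) h
        · intro i _ hi
          refine sum_eq_zero fun j _ => ?_
          rw [if_neg fun h => hi h.1.symm]
        · intro h; exact absurd (mem_univ l) h
      have t4 : ∑ i, ∑ j ∈ univ.erase i, (if l = j ∧ m = i then A i j else 0)
          = if l = m then 0 else A l m := by
        rw [sum_eq_single m]
        · by_cases hlm : l = m
          · subst hlm
            rw [if_pos rfl]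
            refine sum_eq_zero fun j hj => ?_
            rw [if_neg fun h => (ne_of_mem_erase hj) h.1.symm]
          · rw [if_neg hlm, sum_eq_single l]
            · rw [if_pos ⟨rfl, rfl⟩, hsym m l]
            · intro j _ hj
              rw [if_neg fun h => hj h.1.symm]
            · intro h
              exact absurd (mem_erase.2 ⟨hlm, mem_univ l⟩) h
        · intro i _ hi
          refine sum_eq_zero fun j _ => ?_
          rw [if_neg fun h => hi h.2.symm]
        · intro h; exact absurd (mem_univ m) h
      rw [t1, t2, t3, t4]
      split_ifs <;> ring
    rw [hD, hP]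
    by_cases hlm : l = m
    · subst hlm; rw [if_pos rfl, if_pos rfl]; ring
    · rw [if_neg hlm, if_neg hlm, add_zero]
  rw [hA]
  refine CliqueSum.add' (CliqueSum.sum _ _ fun i _ => CliqueSum.sum _ _ fun j _ => ?_)
    (CliqueSum.sum _ _ fun i _ => ?_)
  · by_cases hij : i = j
    · have : P i j = 0 := by
        ext l m; simp only [P]; rw [if_pos hij]; rfl
      rw [this]; exact CliqueSum.zero
    · by_cases hadj : G.Adj i j
      · refine CliqueSum.single (P i j) {i, j} ?_ ?_ ?_ card_le_two
        · have : P i j = (1 / 2 : ℝ) • (fun l m => ρ i j l * ρ i j m : Matrix V V ℝ) := by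
            ext l m; simp only [P]; rw [if_neg hij]; rfl
          rw [this]
          exact (rank_one _).smul (by norm_num)
        · intro l m hlm
          simp only [P] at hlm
          rw [if_neg hij] at hlm
          have h1 : ρ i j l ≠ 0 := by
            intro h; apply hlm; rw [h]; ring
          have h2 : ρ i j m ≠ 0 := by
            intro h; apply hlm; rw [h]; ring
          have h3 : ∀ l, ρ i j l ≠ 0 → l ∈ ({i, j} : Finset V) := by
            intro l hl
            by_contra hcon
            simp only [mem_insert, mem_singleton, not_or] at hcon
            apply hl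
            simp only [ρ]
            rw [if_neg hcon.1, if_neg hcon.2, add_zero]
          exact ⟨h3 l h1, h3 m h2⟩
        · intro l hl m hm hlm
          simp only [mem_insert, mem_singleton] at hl hm
          rcases hl with rfl | rfl <;> rcases hm with rfl | rfl
          · exact absurd rfl hlm
          · exact hadj
          · exact hadj.symm
          · exact absurd rfl hlm
      · have : P i j = 0 := by
          have h1 : A i j = 0 := hsupp i j hij hadj
          have h2 : a i j = 0 := by simp only [a]; rw [h1]; ring
          have h3 : a j i = 0 := by simp only [a]; rw [hsym j i, h1]; ring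
          ext l m
          simp only [P, ρ]
          rw [if_neg hij, h2, h3]
          simp
        rw [this]; exact CliqueSum.zero
  · refine CliqueSum.single (D i) {i} ?_ ?_ ?_ (by simp)
    · rw [psd_iff]
      refine ⟨fun l m => ?_, fun x => ?_⟩
      · simp only [D]
        by_cases h1 : l = i <;> by_cases h2 : m = i <;> simp [h1, h2]
      · refine sum_nonneg fun l _ => sum_nonneg fun m _ => ?_
        simp only [D]
        by_cases h : l = i ∧ m = i
        · rw [if_pos h, h.1, h.2]
          have := mul_nonneg (hslack i) (mul_self_nonneg (x i))
          calc (0 : ℝ) ≤ _ := this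
            _ = _ := by ring
        · rw [if_neg h]; simp
    · intro l m hlm
      simp only [D] at hlm
      have : l = i ∧ m = i := by
        by_contra h; exact hlm (if_neg h)
      simp [this.1, this.2]
    · intro l hl m hm hlm
      simp only [mem_singleton] at hl hm
      exact absurd (hl.trans hm.symm) hlm

end Pool.Agent.H422Cone
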