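import Pool.Agent.H422Cone.Basic

/-!
# The FitzGerald and Horn theorem (sufficiency) by the path argument
-/

set_option autoImplicit false

open Finset

namespace Pool.Agent.H422Cone

/-- Adding a positive multiple of the identity. -/
theorem add_eps {W : Type*} [Fintype W] [DecidableEq W] (A : Matrix W W ℝ)
    (hpsd : ∀ x : W → ℝ, 0 ≤ ∑ i, ∑ j, x i * A i j * x j) (ε : ℝ) (x : W → ℝ) :
    ε * ∑ i, x i ^ 2 ≤ ∑ i, ∑ j, x i * (A i j + if i = j then ε else 0) * x j := by
  have h := hpsd x
  have e : ∑ i, ∑ j, x i * (A i j + if i = j then ε else 0) * x j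
      = ∑ i, ∑ j, x i * A i j * x j + ε * ∑ i, x i ^ 2 := by
    rw [mul_sum, ← sum_add_distrib]
    refine sum_congr rfl fun i _ => ?_
    have e1 : ∀ j, x i * (A i j + if i = j then ε else 0) * x j
        = x i * A i j * x j + (if i = j then ε * (x i * x j) else 0) := by
      intro j
      split_ifs <;> ring
    simp only [e1]
    rw [sum_add_distrib, sum_ite_eq univ i]
    simp only [mem_univ, if_true]
    ring
  rw [e]
  linarith

/-- Passing to the limit in the perturbation. -/
theorem perturb {W : Type*} [Fintype W] [DecidableEq W] (A : Matrix W W ℝ) {β : ℝ} (hβ : 0 < β)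
    (x : W → ℝ)
    (h : ∀ ε : ℝ, 0 < ε → 0 ≤ ∑ i, ∑ j, x i * (A i j + if i = j then ε else 0) ^ β * x j) :
    0 ≤ ∑ i, ∑ j, x i * A i j ^ β * x j := by
  let F : ℝ → ℝ := fun ε => ∑ i, ∑ j, x i * (A i j + if i = j then ε else 0) ^ β * x j
  have hcont : Filter.Tendsto F (nhdsWithin 0 (Set.Ioi 0)) (nhds (F 0)) := by
    have : Continuous F := by
      refine continuous_finsetSum _ fun i _ => continuous_finsetSum _ fun j _ => ?_
      refine Continuous.mul (Continuous.mul continuous_const ?_) continuous_const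
      refine Continuous.rpow_const ?_ fun _ => Or.inr hβ.le
      by_cases h : i = j
      · simp only [if_pos h]; exact continuous_const.add continuous_id
      · simp only [if_neg h]; exact continuous_const
    exact (this.tendsto 0).mono_left nhdsWithin_le_nhds
  have h0 : 0 ≤ F 0 := by
    refine ge_of_tendsto hcont ?_
    filter_upwards [self_mem_nhdsWithin] with ε hε
    exact h ε hε
  simpa [F] using h0

/-- The path argument. -/
theorem path_gen {V : Type*} [Fintype V] (B : Matrix V V ℝ)
    (hsym : ∀ i j, B i j = B j i)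
    (z : V → ℝ) (hz : ∀ i, 0 ≤ z i)
    (hS : ∀ x : V → ℝ, 0 ≤ ∑ i, ∑ j, x i * (B i j - z i * z j) * x j)
    {β : ℝ} (hβ : 1 ≤ β)
    (hC : ∀ t : ℝ, 0 < t → t < 1 →
      Matrix.PosSemidef (fun i j => (t * B i j + (1 - t) * (z i * z j)) ^ (β - 1) : Matrix V V ℝ))
    (y : V → ℝ) :
    (∑ i, y i * z i ^ β) ^ 2 ≤ ∑ i, ∑ j, y i * (B i j) ^ β * y j := by
  let φ : ℝ → ℝ := fun t => ∑ i, ∑ j, y i * (t * B i j + (1 - t) * (z i * z j)) ^ β * y j
  have hd : ∀ t : ℝ, HasDerivAt φ (∑ i, ∑ j, y i * ((B i j - z i * z j) * β *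
      (t * B i j + (1 - t) * (z i * z j)) ^ (β - 1)) * y j) t := by
    intro t
    have hl : ∀ u v : ℝ, HasDerivAt (fun t : ℝ => (t * u + (1 - t) * v) ^ β)
        ((u - v) * β * (t * u + (1 - t) * v) ^ (β - 1)) t := by
      intro u v
      have h0 : HasDerivAt (fun t : ℝ => t * u + (1 - t) * v) (u - v) t := by
        have h1 := ((hasDerivAt_id t).mul_const u).add
          (((hasDerivAt_const t (1 : ℝ)).sub (hasDerivAt_id t)).mul_const v)
        have e : (1 : ℝ) * u + (0 - 1) * v = u - v := by ring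
        rw [e] at h1
        exact h1
      exact h0.rpow_const (Or.inr hβ)
    exact HasDerivAt.fun_sum fun i _ => HasDerivAt.fun_sum fun j _ =>
      ((hl (B i j) (z i * z j)).const_mul (y i)).mul_const (y j)
  have hmono : MonotoneOn φ (Set.Icc 0 1) := by
    apply monotoneOn_of_deriv_nonneg (convex_Icc 0 1)
    · exact fun t _ => (hd t).continuousAt.continuousWithinAt
    · exact fun t _ => (hd t).differentiableAt.differentiableWithinAt
    · intro t ht
      rw [interior_Icc] at ht
      rw [(hd t).deriv]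
      have hCt := hC t ht.1 ht.2
      let S : Matrix V V ℝ := fun i j => B i j - z i * z j
      have hSp : S.PosSemidef := by
        rw [psd_iff]
        refine ⟨fun i j => ?_, fun x => hS x⟩
        simp only [S]; rw [hsym i j, mul_comm (z i)]
      have hH := (psd_iff _).1 (hSp.hadamard hCt)
      have h1 := mul_nonneg (show (0 : ℝ) ≤ β by linarith) (hH.2 y)
      refine h1.trans (le_of_eq ?_)
      rw [mul_sum]
      refine sum_congr rfl fun i _ => ?_
      rw [mul_sum]
      refine sum_congr rfl fun j _ => ?_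
      simp only [Matrix.hadamard_apply, S]
      ring
  have h := hmono (Set.left_mem_Icc.2 zero_le_one) (Set.right_mem_Icc.2 zero_le_one) zero_le_one
  have e0 : φ 0 = (∑ i, y i * z i ^ β) ^ 2 := by
    simp only [φ]
    rw [sq, sum_mul_sum]
    refine sum_congr rfl fun i _ => sum_congr rfl fun j _ => ?_
    rw [zero_mul, sub_zero, one_mul, zero_add, Real.mul_rpow (hz i) (hz j)]
    ring
  have e1 : φ 1 = ∑ i, ∑ j, y i * (B i j) ^ β * y j := by
    simp only [φ]
    refine sum_congr rfl fun i _ => sum_congr rfl fun j _ => ?_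
    rw [one_mul, sub_self, zero_mul, add_zero]
  rw [e0, e1] at h
  exact h

/-- Splitting a quadratic form on `Option V`. -/
theorem quad_option {V : Type*} [Fintype V] (M : Matrix (Option V) (Option V) ℝ)
    (hM : ∀ i j, M i j = M j i) (x : Option V → ℝ) :
    ∑ i, ∑ j, x i * M i j * x j
      = M none none * x none ^ 2 + 2 * x none * ∑ i, M none (some i) * x (some i)
        + ∑ i, ∑ j, x (some i) * M (some i) (some j) * x (some j) := by
  rw [Fintype.sum_option, Fintype.sum_option]
  have e : ∀ i : V, ∑ j, x (some i) * M (some i) j * x j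
      = x (some i) * M (some i) none * x none
        + ∑ j, x (some i) * M (some i) (some j) * x (some j) := by
    intro i
    rw [Fintype.sum_option]
  simp only [e]
  rw [sum_add_distrib, mul_sum]
  have e2 : ∑ i, x (some i) * M (some i) none * x none
      = ∑ i, x none * M none (some i) * x (some i) := by
    refine sum_congr rfl fun i _ => ?_
    rw [hM (some i) none]; ring
  have e3 : ∑ i, 2 * x none * (M none (some i) * x (some i))
      = ∑ i, x none * M none (some i) * x (some i)
        + ∑ i, x none * M none (some i) * x (some i) := by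
    rw [← sum_add_distrib]
    exact sum_congr rfl fun i _ => by ring
  rw [e2, e3]
  ring

/-- One step of the FitzGerald and Horn induction. -/
theorem step {V : Type*} [Fintype V] [DecidableEq V] {β : ℝ} (hβ : 1 ≤ β)
    (hV : ∀ M : Matrix V V ℝ, M.PosSemidef → (∀ i j, 0 ≤ M i j) →
      Matrix.PosSemidef (fun i j => M i j ^ (β - 1) : Matrix V V ℝ))
    (A : Matrix (Option V) (Option V) ℝ) (hA : A.PosSemidef) (hnn : ∀ i j, 0 ≤ A i j)
    (x : Option V → ℝ) : 0 ≤ ∑ i, ∑ j, x i * (A i j) ^ β * x j := by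
  obtain ⟨hsym₀, hpsd₀⟩ := (psd_iff A).1 hA
  apply perturb A (by linarith) x
  intro ε hε
  set A' : Matrix (Option V) (Option V) ℝ := fun i j => A i j + if i = j then ε else 0 with hA'
  have hsym : ∀ i j, A' i j = A' j i := by
    intro i j
    simp only [hA']
    rw [hsym₀ i j]
    by_cases h : i = j
    · subst h; rfl
    · rw [if_neg h, if_neg (Ne.symm h)]
  have hnn' : ∀ i j, 0 ≤ A' i j := by
    intro i j
    have := hnn i j
    simp only [hA']
    split_ifs <;> linarith
  have hpd : ∀ x : Option V → ℝ, ε * ∑ i, x i ^ 2 ≤ ∑ i, ∑ j, x i * A' i j * x j :=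
    fun x => add_eps A hpsd₀ ε x
  change 0 ≤ ∑ i, ∑ j, x i * (A' i j) ^ β * x j
  clear_value A'
  set a := A' none none with ha
  have ha0 : 0 < a := by
    have h := hpd (fun i => if i = none then 1 else 0)
    rw [quad_option A' hsym] at h
    simp only [Fintype.sum_option] at h
    simp at h
    linarith
  set r := Real.sqrt a with hr
  have hr0 : 0 < r := Real.sqrt_pos.2 ha0
  have hr2 : r * r = a := Real.mul_self_sqrt ha0.le
  let z : V → ℝ := fun i => A' none (some i) / r
  have hz : ∀ i, 0 ≤ z i := fun i => div_nonneg (hnn' _ _) hr0.le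
  have hzA : ∀ i, A' none (some i) = r * z i := by
    intro i; simp only [z]; field_simp
  let B : Matrix V V ℝ := fun i j => A' (some i) (some j)
  have hS : ∀ y : V → ℝ, 0 ≤ ∑ i, ∑ j, y i * (B i j - z i * z j) * y j := by
    intro y
    have h := hpd (fun i => i.elim (-(∑ i, z i * y i) / r) y)
    rw [quad_option A' hsym] at h
    have h0 : 0 ≤ ε * ∑ i : Option V, (i.elim (-(∑ i, z i * y i) / r) y) ^ 2 :=
      mul_nonneg hε.le (sum_nonneg fun i _ => sq_nonneg _)
    have h1 := h0.trans h
    simp only [Option.elim_none, Option.elim_some] at h1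
    have e1 : ∑ i, A' none (some i) * y i = r * ∑ i, z i * y i := by
      rw [mul_sum]
      exact sum_congr rfl fun i _ => by rw [hzA i]; ring
    have e2 : ∑ i, ∑ j, y i * (B i j - z i * z j) * y j
        = ∑ i, ∑ j, y i * B i j * y j - (∑ i, z i * y i) ^ 2 := by
      rw [sq, sum_mul_sum, ← sum_sub_distrib]
      refine sum_congr rfl fun i _ => ?_
      rw [← sum_sub_distrib]
      exact sum_congr rfl fun j _ => by ring
    rw [e1] at h1
    rw [e2]
    set T := ∑ i, z i * y i with hT
    have e3 : a * (-T / r) ^ 2 + 2 * (-T / r) * (r * T) = -T ^ 2 := by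
      rw [← hr2]; field_simp; ring
    have e4 : a * (-T / r) ^ 2 + 2 * (-T / r) * (r * T)
        + ∑ i, ∑ j, y i * A' (some i) (some j) * y j
        = ∑ i, ∑ j, y i * B i j * y j - T ^ 2 := by
      rw [e3]; simp only [B]; ring
    rw [e4] at h1
    exact h1
  have hp := path_gen B (fun i j => hsym _ _) z hz hS hβ (by
    intro t ht0 ht1
    apply hV (fun i j => t * B i j + (1 - t) * (z i * z j))
    · rw [psd_iff]
      refine ⟨fun i j => ?_, fun y => ?_⟩
      · simp only [B]; rw [hsym (some i) (some j), mul_comm (z i)]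
      · have h1 := mul_nonneg ht0.le (hS y)
        have h2 : 0 ≤ (∑ i, z i * y i) ^ 2 := sq_nonneg _
        have e : ∑ i, ∑ j, y i * (t * B i j + (1 - t) * (z i * z j)) * y j
            = t * ∑ i, ∑ j, y i * (B i j - z i * z j) * y j + (∑ i, z i * y i) ^ 2 := by
          rw [sq, sum_mul_sum, mul_sum, ← sum_add_distrib]
          refine sum_congr rfl fun i _ => ?_
          rw [mul_sum, ← sum_add_distrib]
          exact sum_congr rfl fun j _ => by ring
        rw [e]
        linarith
    · intro i j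
      have h1 := hnn' (some i) (some j)
      have h2 := mul_nonneg (hz i) (hz j)
      have h3 : 0 ≤ 1 - t := by linarith
      exact add_nonneg (mul_nonneg ht0.le h1) (mul_nonneg h3 h2)) fun i => x (some i)
  have hQ' := quad_option (fun i j => A' i j ^ β) (fun i j => by rw [hsym i j]) x
  rw [hQ']
  have e5 : ∑ i, A' none (some i) ^ β * x (some i) = r ^ β * ∑ i, x (some i) * z i ^ β := by
    rw [mul_sum]
    refine sum_congr rfl fun i _ => ?_
    rw [hzA i, Real.mul_rpow hr0.le (hz i)]; ring
  have e6 : A' none none ^ β = (r ^ β) ^ 2 := by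
    rw [← ha, ← hr2, Real.mul_rpow hr0.le hr0.le, sq]
  rw [e5, e6]
  simp only [B] at hp
  nlinarith [sq_nonneg (r ^ β * x none + ∑ i, x (some i) * z i ^ β)]

/-- **FitzGerald and Horn** (sufficiency): powers `γ ≥ n - 2`, `γ ≥ 0` preserve positive
semidefiniteness of nonnegative `n × n` matrices. -/
theorem fh_fin (n : ℕ) : ∀ (γ : ℝ), 0 ≤ γ → (n : ℝ) - 2 ≤ γ → ∀ M : Matrix (Fin n) (Fin n) ℝ,
    M.PosSemidef → (∀ i j, 0 ≤ M i j) →
      Matrix.PosSemidef (fun i j => M i j ^ γ : Matrix (Fin n) (Fin n) ℝ) := by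
  induction n with
  | zero =>
    intro γ _ _ M _ _
    rw [psd_iff]
    exact ⟨fun i => i.elim0, fun x => by simp⟩
  | succ n ih =>
    intro γ hγ0 hγ M hM hnn
    obtain ⟨hsym, hpsd⟩ := (psd_iff M).1 hM
    have hsym' : ∀ i j, M i j ^ γ = M j i ^ γ := fun i j => by rw [hsym i j]
    rcases Nat.lt_or_ge n 2 with hn | hn
    · rcases (by omega : n = 0 ∨ n = 1) with rfl | rfl
      · rw [psd_iff]
        refine ⟨hsym', fun x => ?_⟩
        simp only [Nat.reduceAdd, univ_unique, sum_singleton]
        have := Real.rpow_nonneg (hnn default default) γ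
        have h2 := mul_nonneg this (mul_self_nonneg (x default))
        calc (0 : ℝ) ≤ _ := h2
          _ = _ := by ring
      · rw [psd_iff]
        refine ⟨hsym', fun x => ?_⟩
        rw [Fin.sum_univ_two, Fin.sum_univ_two, Fin.sum_univ_two]
        have hdet : M 0 1 ^ 2 ≤ M 0 0 * M 1 1 := by
          have h1 := hpsd ![M 0 1, -(M 0 0)]
          have h2 := hpsd ![M 1 1, -(M 0 1)]
          have h3 := hpsd ![1, -1]
          have h4 := hpsd ![M 0 1 + 1, -(M 0 0) - 1]
          rw [Fin.sum_univ_two, Fin.sum_univ_two, Fin.sum_univ_two] at h1 h2 h3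
          simp only [Matrix.cons_val_zero, Matrix.cons_val_one] at h1 h2 h3
          have e := hsym 0 1
          rw [← e] at h1 h2 h3
          have h00 := hnn 0 0
          have h11 := hnn 1 1
          have h01 := hnn 0 1
          by_contra hc
          push Not at hc
          have k1 : 0 ≤ M 0 0 * (M 0 0 * M 1 1 - M 0 1 ^ 2) := by nlinarith
          have k2 : 0 ≤ M 1 1 * (M 0 0 * M 1 1 - M 0 1 ^ 2) := by nlinarith
          have k3 : M 0 0 = 0 := by
            by_contra h
            have : 0 < M 0 0 := lt_of_le_of_ne h00 (Ne.symm h)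
            nlinarith
          have k4 : M 1 1 = 0 := by
            by_contra h
            have : 0 < M 1 1 := lt_of_le_of_ne h11 (Ne.symm h)
            nlinarith
          rw [k3, k4] at h3 hc
          have k5 : M 0 1 = 0 := by linarith
          rw [k5] at hc
          norm_num at hc
        have hdet' : (M 0 1 ^ γ) ^ 2 ≤ M 0 0 ^ γ * M 1 1 ^ γ := by
          rw [← Real.mul_rpow (hnn 0 0) (hnn 1 1), ← Real.rpow_natCast, ← Real.rpow_mul (hnn 0 1),
            mul_comm γ ((2 : ℕ) : ℝ), Real.rpow_mul (hnn 0 1), Real.rpow_natCast]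
          exact Real.rpow_le_rpow (by positivity) hdet hγ0
        rw [hsym 1 0]
        set a := M 0 0 ^ γ
        set b := M 0 1 ^ γ
        set c := M 1 1 ^ γ
        have ha : 0 ≤ a := Real.rpow_nonneg (hnn 0 0) γ
        have hb : 0 ≤ b := Real.rpow_nonneg (hnn 0 1) γ
        have hc : 0 ≤ c := Real.rpow_nonneg (hnn 1 1) γ
        have h5 : (2 * (b * (|x 0| * |x 1|))) ^ 2 ≤ (a * x 0 ^ 2 + c * x 1 ^ 2) ^ 2 := by
          have e1 : (2 * (b * (|x 0| * |x 1|))) ^ 2 = 4 * (b ^ 2 * (x 0 ^ 2 * x 1 ^ 2)) := by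
            calc (2 * (b * (|x 0| * |x 1|))) ^ 2 = 4 * (b ^ 2 * (|x 0| ^ 2 * |x 1| ^ 2)) := by ring
              _ = _ := by rw [sq_abs, sq_abs]
          rw [e1]
          have h6 : b ^ 2 * (x 0 ^ 2 * x 1 ^ 2) ≤ (a * c) * (x 0 ^ 2 * x 1 ^ 2) :=
            mul_le_mul_of_nonneg_right hdet' (by positivity)
          nlinarith [sq_nonneg (a * x 0 ^ 2 - c * x 1 ^ 2)]
        have h7 := (abs_le_of_sq_le_sq' h5 (by positivity)).2
        have h8 : -(|x 0| * |x 1|) ≤ x 0 * x 1 := by
          rw [← abs_mul]; exact neg_abs_le _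
        have h9 : -(b * (|x 0| * |x 1|)) ≤ b * (x 0 * x 1) := by nlinarith
        nlinarith
    · have hγ1 : (1 : ℝ) ≤ γ := by
        have : (2 : ℝ) ≤ n := by exact_mod_cast hn
        push_cast at hγ
        linarith
      have hst := step (V := Fin n) hγ1 (fun M' hM' hnn' => ih (γ - 1) (by linarith)
        (by push_cast at hγ; linarith) M' hM' hnn')
        (M.submatrix (finSuccEquiv n).symm (finSuccEquiv n).symm) (hM.submatrix _)
        (fun i j => hnn _ _)
      rw [psd_iff]
      refine ⟨hsym', fun x => ?_⟩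
      have h1 := hst fun i => x ((finSuccEquiv n).symm i)
      rw [← (finSuccEquiv n).symm.sum_comp]
      refine h1.trans (le_of_eq ?_)
      refine sum_congr rfl fun i _ => ?_
      rw [← (finSuccEquiv n).symm.sum_comp]
      rfl

/-- FitzGerald and Horn for an arbitrary finite index type. -/
theorem fh {V : Type*} [Fintype V] {k : ℕ} (hk : Fintype.card V ≤ k) {γ : ℝ} (hγ0 : 0 ≤ γ)
    (hγ : (k : ℝ) - 2 ≤ γ) (M : Matrix V V ℝ) (hM : M.PosSemidef) (hnn : ∀ i j, 0 ≤ M i j) :
    Matrix.PosSemidef (fun i j => M i j ^ γ : Matrix V V ℝ) := by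
  classical
  let e := (Fintype.equivFin V).symm
  have hc : ((Fintype.card V : ℕ) : ℝ) ≤ k := by exact_mod_cast hk
  have h := fh_fin (Fintype.card V) γ hγ0 (by linarith) (M.submatrix e e) (hM.submatrix e)
    (fun i j => hnn _ _)
  have h2 := h.submatrix e.symm
  convert h2 using 1
  ext i j
  simp [Matrix.submatrix_apply]

end Pool.Agent.H422Cone
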