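import Pool.Agent.H422Cone.Basic

/-!
# The lower bound for critical exponents
-/

set_option autoImplicit false

open Finset

namespace Pool.Agent.H422Cone

/-- Taylor expansion of `(1+t)^β` with a crude remainder. -/
theorem taylor_bound (β : ℝ) (N : ℕ) : ∃ (c : ℕ → ℝ) (C : ℝ), c 0 = 1 ∧ 0 ≤ C ∧
    ∀ t : ℝ, 0 ≤ t → t ≤ 1 → |(1 + t) ^ β - ∑ l ∈ range (N + 1), c l * t ^ l| ≤ C * t ^ (N + 1) := by
  have hcd : ContDiffOn ℝ (N + 1) (fun t : ℝ => (1 + t) ^ β) (Set.Icc 0 1) := by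
    apply ContDiffOn.rpow_const_of_ne
    · exact (contDiff_const.add contDiff_id).contDiffOn
    · intro x hx
      have := hx.1
      linarith
  obtain ⟨C, hC⟩ := exists_taylor_mean_remainder_bound (n := N) zero_le_one hcd
  refine ⟨fun l => (l.factorial : ℝ)⁻¹ *
    iteratedDerivWithin l (fun t : ℝ => (1 + t) ^ β) (Set.Icc 0 1) 0, max C 0, ?_,
    le_max_right _ _, ?_⟩
  · simp [iteratedDerivWithin_zero]
  · intro t ht0 ht1
    have h := hC t ⟨ht0, ht1⟩
    rw [taylor_within_apply] at h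
    simp only [sub_zero, smul_eq_mul, Real.norm_eq_abs] at h
    have e : ∑ l ∈ range (N + 1), ((l.factorial : ℝ)⁻¹ *
        iteratedDerivWithin l (fun t : ℝ => (1 + t) ^ β) (Set.Icc 0 1) 0) * t ^ l
        = ∑ k ∈ range (N + 1), (k.factorial : ℝ)⁻¹ * t ^ k *
          iteratedDerivWithin k (fun t : ℝ => (1 + t) ^ β) (Set.Icc 0 1) 0 := by
      refine sum_congr rfl fun l _ => ?_
      ring
    rw [e]
    refine h.trans (mul_le_mul_of_nonneg_right (le_max_left _ _) (by positivity))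

/-- The test vector: coefficients of `∏_{l=1}^{N} (X - 2^l)`. -/
noncomputable def P (N : ℕ) : Polynomial ℝ :=
  ∏ l ∈ range N, (Polynomial.X - Polynomial.C ((2 : ℝ) ^ (l + 1)))

theorem P_natDegree (N : ℕ) : (P N).natDegree = N := by
  unfold P
  rw [Polynomial.natDegree_prod_of_monic _ _ fun l _ => Polynomial.monic_X_sub_C _]
  simp only [Polynomial.natDegree_X_sub_C, sum_const, card_range, smul_eq_mul, mul_one]

theorem P_sum (N : ℕ) (r : ℝ) : ∑ i : Fin (N + 1), (P N).coeff i * r ^ (i : ℕ) = (P N).eval r := by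
  rw [Polynomial.eval_eq_sum_range, P_natDegree,
    Fin.sum_univ_eq_sum_range (fun i => (P N).coeff i * r ^ i) (N + 1)]

theorem P_root (N l : ℕ) (h1 : 1 ≤ l) (h2 : l ≤ N) : (P N).eval ((2 : ℝ) ^ l) = 0 := by
  unfold P
  rw [Polynomial.eval_prod]
  refine prod_eq_zero (i := l - 1) (by simp; omega) ?_
  have : l - 1 + 1 = l := by omega
  rw [this]
  simp

theorem P_ne (N : ℕ) {β : ℝ} (h1 : (N : ℝ) < β) : (P N).eval ((2 : ℝ) ^ β) ≠ 0 := by
  unfold P
  rw [Polynomial.eval_prod]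
  refine prod_ne_zero_iff.2 fun l hl => ?_
  simp only [Polynomial.eval_sub, Polynomial.eval_X, Polynomial.eval_C]
  have hl' : l + 1 ≤ N := by simpa using hl
  have h2 : ((l + 1 : ℕ) : ℝ) < β := lt_of_le_of_lt (by exact_mod_cast hl') h1
  have h3 : (2 : ℝ) ^ (l + 1) < 2 ^ β := by
    rw [← Real.rpow_natCast]
    exact Real.rpow_lt_rpow_of_exponent_lt (by norm_num) h2
  linarith

/-- The analytic inequality behind the lower bound. -/
theorem exists_small (N : ℕ) {β : ℝ} (h1 : (N : ℝ) < β) (h2 : β < N + 1) :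
    ∃ (ε : ℝ) (x y : Fin (N + 1) → ℝ), 0 < ε ∧ (∀ i, 0 < x i) ∧
      ∑ i, ∑ j, y i * y j * ((1 + ε * (x i * x j)) ^ β - 1 - (ε * (x i * x j)) ^ β) < 0 := by
  obtain ⟨c, C, hc0, hC0, hC⟩ := taylor_bound β N
  let x : Fin (N + 1) → ℝ := fun i => 2 ^ (i : ℕ)
  let y : Fin (N + 1) → ℝ := fun i => (P N).coeff i
  have hx : ∀ i, 0 < x i := fun i => by positivity
  have hpow : ∀ l : ℕ, ∑ i, y i * x i ^ l = (P N).eval ((2 : ℝ) ^ l) := by
    intro l
    rw [← P_sum]
    refine sum_congr rfl fun i _ => ?_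
    simp only [x, y]
    rw [← pow_mul, ← pow_mul, mul_comm (i : ℕ) l]
  have hrpow : ∑ i, y i * x i ^ β = (P N).eval ((2 : ℝ) ^ β) := by
    rw [← P_sum]
    refine sum_congr rfl fun i _ => ?_
    simp only [x, y]
    rw [← Real.rpow_natCast 2 (i : ℕ), ← Real.rpow_mul (by norm_num), mul_comm ((i : ℕ) : ℝ) β,
      Real.rpow_mul (by norm_num), Real.rpow_natCast]
  set p := (P N).eval ((2 : ℝ) ^ β) with hp
  have hp0 : 0 < p ^ 2 := by
    have := P_ne N h1
    positivity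
  set K := C * ∑ i, ∑ j, |y i * y j| * (x i * x j) ^ (N + 1) with hK
  have hK0 : 0 ≤ K := mul_nonneg hC0 (sum_nonneg fun i _ => sum_nonneg fun j _ =>
    mul_nonneg (abs_nonneg _) (pow_nonneg (mul_pos (hx i) (hx j)).le _))
  -- choose `ε`
  have hlim : Filter.Tendsto (fun ε : ℝ => K * ε ^ ((N : ℝ) + 1 - β))
      (nhdsWithin 0 (Set.Ioi 0)) (nhds 0) := by
    have hcn : Continuous (fun ε : ℝ => K * ε ^ ((N : ℝ) + 1 - β)) :=
      continuous_const.mul (continuous_id.rpow_const fun _ => Or.inr (by linarith))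
    have := (hcn.tendsto 0).mono_left (nhdsWithin_le_nhds (s := Set.Ioi 0))
    have e : K * (0 : ℝ) ^ ((N : ℝ) + 1 - β) = 0 := by
      rw [Real.zero_rpow (by linarith)]; ring
    rw [e] at this
    exact this
  have hlim2 : Filter.Tendsto (fun ε : ℝ => ε * 4 ^ N) (nhdsWithin 0 (Set.Ioi 0)) (nhds 0) := by
    have hcn : Continuous (fun ε : ℝ => ε * 4 ^ N) := by fun_prop
    have := (hcn.tendsto 0).mono_left (nhdsWithin_le_nhds (s := Set.Ioi 0))
    rw [zero_mul] at this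
    exact this
  obtain ⟨ε, ⟨hε1, hε2⟩, hε0⟩ := (((hlim.eventually (gt_mem_nhds hp0)).and
    (hlim2.eventually (gt_mem_nhds one_pos))).and self_mem_nhdsWithin).exists
  have hε0 : 0 < ε := hε0
  refine ⟨ε, x, y, hε0, hx, ?_⟩
  have hxx : ∀ i j, 0 ≤ ε * (x i * x j) ∧ ε * (x i * x j) ≤ 1 := by
    intro i j
    refine ⟨(mul_pos hε0 (mul_pos (hx i) (hx j))).le, ?_⟩
    have hb : ∀ i : Fin (N + 1), x i ≤ 2 ^ N := fun i =>
      pow_le_pow_right₀ (by norm_num) (by have := i.2; omega)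
    have : x i * x j ≤ 4 ^ N := by
      calc x i * x j ≤ 2 ^ N * 2 ^ N :=
            mul_le_mul (hb i) (hb j) (hx j).le (by positivity)
        _ = 4 ^ N := by rw [← mul_pow]; norm_num
    have := mul_le_mul_of_nonneg_left this hε0.le
    linarith
  let R : ℝ → ℝ := fun t => (1 + t) ^ β - ∑ l ∈ range (N + 1), c l * t ^ l
  have hsplit : ∑ i, ∑ j, y i * y j * ((1 + ε * (x i * x j)) ^ β - 1 - (ε * (x i * x j)) ^ β)
      = ∑ i, ∑ j, y i * y j * R (ε * (x i * x j))
        + ∑ l ∈ range N, c (l + 1) * ε ^ (l + 1) * (∑ i, y i * x i ^ (l + 1)) ^ 2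
        - ε ^ β * (∑ i, y i * x i ^ β) ^ 2 := by
    have e1 : ∀ r : ℕ, ∑ i, ∑ j, y i * y j * (ε * (x i * x j)) ^ r
        = ε ^ r * (∑ i, y i * x i ^ r) ^ 2 := by
      intro r
      rw [sq, sum_mul_sum, mul_sum]
      refine sum_congr rfl fun i _ => ?_
      rw [mul_sum]
      refine sum_congr rfl fun j _ => ?_
      rw [mul_pow, mul_pow]; ring
    have e2 : ∑ i, ∑ j, y i * y j * (ε * (x i * x j)) ^ β
        = ε ^ β * (∑ i, y i * x i ^ β) ^ 2 := by
      rw [sq, sum_mul_sum, mul_sum]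
      refine sum_congr rfl fun i _ => ?_
      rw [mul_sum]
      refine sum_congr rfl fun j _ => ?_
      rw [Real.mul_rpow hε0.le (mul_pos (hx i) (hx j)).le, Real.mul_rpow (hx i).le (hx j).le]
      ring
    rw [← e2]
    have e3 : ∑ l ∈ range N, c (l + 1) * ε ^ (l + 1) * (∑ i, y i * x i ^ (l + 1)) ^ 2
        = ∑ i, ∑ j, y i * y j * ∑ l ∈ range N, c (l + 1) * (ε * (x i * x j)) ^ (l + 1) := by
      have : ∀ l, c (l + 1) * ε ^ (l + 1) * (∑ i, y i * x i ^ (l + 1)) ^ 2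
          = ∑ i, ∑ j, y i * y j * (c (l + 1) * (ε * (x i * x j)) ^ (l + 1)) := by
        intro l
        rw [mul_assoc, ← e1 (l + 1), mul_sum]
        refine sum_congr rfl fun i _ => ?_
        rw [mul_sum]
        exact sum_congr rfl fun j _ => by ring
      simp only [this]
      rw [sum_comm]
      refine sum_congr rfl fun i _ => ?_
      rw [sum_comm]
      refine sum_congr rfl fun j _ => ?_
      rw [mul_sum]
    rw [e3, ← sum_add_distrib, ← sum_sub_distrib]
    refine sum_congr rfl fun i _ => ?_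
    rw [← sum_add_distrib, ← sum_sub_distrib]
    refine sum_congr rfl fun j _ => ?_
    simp only [R]
    rw [sum_range_succ', pow_zero, hc0]
    ring
  have hzero : ∑ l ∈ range N, c (l + 1) * ε ^ (l + 1) * (∑ i, y i * x i ^ (l + 1)) ^ 2 = 0 := by
    refine sum_eq_zero fun l hl => ?_
    rw [hpow, P_root N (l + 1) (by omega) (by simpa using hl)]
    ring
  have hR : ∑ i, ∑ j, y i * y j * R (ε * (x i * x j)) ≤ K * ε ^ (N + 1) := by
    rw [hK, mul_sum, sum_mul]
    refine sum_le_sum fun i _ => ?_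
    rw [mul_sum, sum_mul]
    refine sum_le_sum fun j _ => ?_
    have h3 := hC _ (hxx i j).1 (hxx i j).2
    calc y i * y j * R (ε * (x i * x j)) ≤ |y i * y j * R (ε * (x i * x j))| := le_abs_self _
      _ = |y i * y j| * |R (ε * (x i * x j))| := abs_mul _ _
      _ ≤ |y i * y j| * (C * (ε * (x i * x j)) ^ (N + 1)) :=
          mul_le_mul_of_nonneg_left h3 (abs_nonneg _)
      _ = _ := by rw [mul_pow]; ring
  rw [hsplit, hzero, hrpow, add_zero]
  have hεβ : ε ^ (N + 1) = ε ^ β * ε ^ ((N : ℝ) + 1 - β) := by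
    rw [← Real.rpow_add hε0]
    have : β + ((N : ℝ) + 1 - β) = ((N + 1 : ℕ) : ℝ) := by push_cast; ring
    rw [this, Real.rpow_natCast]
  have hεp : 0 < ε ^ β := Real.rpow_pos_of_pos hε0 _
  have : K * ε ^ (N + 1) - ε ^ β * p ^ 2 = ε ^ β * (K * ε ^ ((N : ℝ) + 1 - β) - p ^ 2) := by
    rw [hεβ]; ring
  have h4 : ε ^ β * (K * ε ^ ((N : ℝ) + 1 - β) - p ^ 2) < 0 :=
    mul_neg_of_pos_of_neg hεp (by linarith)
  linarith

end Pool.Agent.H422Cone
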